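import Mathlib

namespace Pool.Agent.P.MP_7ad5cd_lc

open Cardinal Set

universe u

theorem mk_Iic_lt {c : Cardinal.{u}} (hc : ℵ₀ ≤ c) (i : c.ord.ToType) : #(Iic i) < c := by
  have h1 : #(Iio i) < c := Cardinal.mk_Iio_toType_ord_lt i
  have h2 : (Iic i : Set c.ord.ToType) = insert i (Iio i) := by
    ext x; simp [le_iff_lt_or_eq, or_comm]
  rw [h2]
  refine lt_of_le_of_lt (mk_insert_le) ?_
  exact add_lt_of_lt hc h1 (one_lt_aleph0.trans_le hc)

theorem bounded_of_lt_cof {K : Type u} [LinearOrder K] {s : Set K}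
    (hs : #s < Order.cof K) : ∃ γ, ∀ a ∈ s, a < γ := by
  by_contra h
  push Not at h
  have hcof : IsCofinal s := fun γ => by
    obtain ⟨a, ha, hle⟩ := h γ
    exact ⟨a, ha, hle⟩
  exact absurd (Order.cof_le hcof) (not_le.2 hs)

/-- The abstract construction. -/
theorem core {lam : Cardinal.{u}} (haleph : ℵ₀ < lam) (hlim : Order.IsSuccLimit lam)
    {ι K L : Type u}
    [LinearOrder ι] [WellFoundedLT ι] [LinearOrder K]
    (hι : #ι < lam) (hι2 : ∀ i : ι, #(Iio i) < lam.ord.cof)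
    (hK1 : ∀ γ : K, #(Iic γ) ≤ lam) (hK2 : ∀ s : Set K, #s ≤ lam → ∃ γ, ∀ a ∈ s, a < γ)
    (hL : #L = lam) (Lc : ι → Set L) (hLc : ∀ i, #(Lc i) < lam) (hmono : Monotone Lc)
    (hcov : ∀ x, ∃ i, x ∈ Lc i)
    (Y : K → Set L) (hY : ∀ γ, #(Y γ) < lam) (hYcov : ∀ b : Set L, #b < lam → ∃ γ, b ⊆ Y γ) :
    ∃ c : K → L → ι, ∀ B : Set L, #B = lam →
      ∃ δ : K, ∀ α, δ < α → ∃ i₀, ∀ i, i₀ ≤ i → ∃ β ∈ B, c α β = i := by
  classical
  have h0 : ℵ₀ ≤ lam := haleph.le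
  -- cardinals below `lam` are eventually dominated
  have hdom : ∀ τ < lam, ∃ i, τ ≤ #(Lc i) := by
    intro τ hτ
    by_contra h
    push Not at h
    have h1 : (univ : Set L) ⊆ ⋃ i, Lc i := fun x _ => mem_iUnion.2 (hcov x)
    have h2 : lam ≤ #ι * τ := by
      calc lam = #(univ : Set L) := by rw [mk_univ, hL]
        _ ≤ #(⋃ i, Lc i) := mk_le_mk_of_subset h1
        _ ≤ #ι * ⨆ i, #(Lc i) := mk_iUnion_le _
        _ ≤ #ι * τ := mul_le_mul_right (ciSup_le' fun i => (h i).le) _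
    exact absurd h2 (not_le.2 (mul_lt_of_lt h0 hι hτ))
  -- uniform control of the size of covering sets
  have hctl : ∀ σ : Cardinal.{u}, ∃ τ : Cardinal.{u}, σ < lam → τ < lam ∧
      ∀ b : Set L, #b ≤ σ → ∃ γ, #(Y γ) ≤ τ ∧ b ⊆ Y γ := by
    intro σ
    by_cases hσ : σ < lam
    · by_contra h
      push Not at h
      have h1 : ∀ i, ∃ b : Set L, #b ≤ σ ∧ ∀ γ, #(Y γ) ≤ #(Lc i) → ¬ b ⊆ Y γ :=
        fun i => (h _).2 (hLc i)
      choose b hb1 hb2 using h1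
      have h2 : #(⋃ i, b i) < lam :=
        lt_of_le_of_lt ((mk_iUnion_le _).trans (mul_le_mul_right (ciSup_le' hb1) _))
          (mul_lt_of_lt h0 hι hσ)
      obtain ⟨γ, hγ⟩ := hYcov _ h2
      obtain ⟨i, hi⟩ := hdom _ (hY γ)
      exact hb2 i γ hi ((subset_iUnion b i).trans hγ)
    · exact ⟨0, fun h => absurd h hσ⟩
  choose τ hτ using hctl
  -- the sequence of bounds
  let m : ι → Cardinal.{u} := (wellFounded_lt (α := ι)).fix fun i rec =>
    max ℵ₀ (max #(Lc i) (τ (Order.succ (Cardinal.sum fun j : Iio i => rec j.1 j.2))))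
  have hm : ∀ i, m i =
      max ℵ₀ (max #(Lc i) (τ (Order.succ (Cardinal.sum fun j : Iio i => m j.1)))) :=
    fun i => WellFounded.fix_eq _ _ _
  have hsum : ∀ i, (∀ j < i, m j < lam) → Cardinal.sum (fun j : Iio i => m j.1) < lam := by
    intro i ih
    refine lt_of_le_of_lt (sum_le_mk_mul_iSup _) (mul_lt_of_lt h0 ?_ ?_)
    · exact (hι2 i).trans_le (Ordinal.cof_ord_le lam)
    · exact iSup_lt_of_lt_cof_ord (hι2 i) fun j => ih j.1 j.2
  have hmlt : ∀ i, m i < lam := by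
    intro i
    induction i using WellFoundedLT.induction with
    | ind i ih =>
      rw [hm]
      exact max_lt haleph (max_lt (hLc i) (hτ _ (hlim.succ_lt (hsum i ih))).1)
  have hm0 : ∀ i, ℵ₀ ≤ m i := fun i => by rw [hm]; exact le_max_left _ _
  have hmL : ∀ i, #(Lc i) ≤ m i := fun i => by
    rw [hm]; exact (le_max_left _ _).trans (le_max_right _ _)
  have hmτ : ∀ i, τ (Order.succ (Cardinal.sum fun j : Iio i => m j.1)) ≤ m i := fun i => by
    conv_rhs => rw [hm]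
    exact (le_max_right _ _).trans (le_max_right _ _)
  -- injections of initial segments
  have he : ∀ γ : K, ∃ e : K → L, InjOn e (Iic γ) := by
    intro γ
    obtain ⟨f⟩ := (Cardinal.le_def _ _).1 (hL ▸ hK1 γ : #(Iic γ) ≤ #L)
    refine ⟨fun x => if h : x ≤ γ then f ⟨x, h⟩ else f ⟨γ, le_refl γ⟩, ?_⟩
    intro x hx y hy hxy
    simp only [show x ≤ γ from hx, show y ≤ γ from hy, dif_pos] at hxy
    exact congrArg Subtype.val (f.injective hxy)
  choose e he using he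
  let D : K → ι → Set K := fun α i => {x | x ≤ α ∧ e α x ∈ Lc i}
  have hD : ∀ α i, #(D α i) ≤ m i := by
    intro α i
    refine le_trans ?_ (hmL i)
    exact mk_le_of_injective (f := fun x : D α i => (⟨e α x.1, x.2.2⟩ : Lc i))
      fun x y hxy => Subtype.ext (he α x.2.1 y.2.1 (congrArg Subtype.val hxy))
  let E : K → ι → Set K := fun α i =>
    ⋃ δ ∈ D α i, ⋃ ε ∈ D α i, {γ | #(Y ε) ≤ m i ∧ γ ≤ δ ∧ e δ γ ∈ Y ε}
  have hE : ∀ α i, #(E α i) ≤ m i := by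
    intro α i
    refine (mk_biUnion_le _ _).trans (mul_le_of_le (hm0 i) (hD α i) (ciSup_le' fun δ => ?_))
    refine (mk_biUnion_le _ _).trans (mul_le_of_le (hm0 i) (hD α i) (ciSup_le' fun ε => ?_))
    by_cases h : #(Y ε) ≤ m i
    · refine le_trans ?_ h
      exact mk_le_of_injective
        (f := fun x : {γ | #(Y ε.1) ≤ m i ∧ γ ≤ δ.1 ∧ e δ.1 γ ∈ Y ε.1} =>
          (⟨e δ.1 x.1, x.2.2.2⟩ : Y ε.1))
        fun x y hxy => Subtype.ext (he δ.1 x.2.2.1 y.2.2.1 (congrArg Subtype.val hxy))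
    · simp [h]
  let U : K → ι → Set L := fun α i => ⋃ γ ∈ E α i, {x | #(Y γ) ≤ m i ∧ x ∈ Y γ}
  have hU : ∀ α i, #(U α i) ≤ m i := by
    intro α i
    refine (mk_biUnion_le _ _).trans (mul_le_of_le (hm0 i) (hE α i) (ciSup_le' fun γ => ?_))
    by_cases h : #(Y γ) ≤ m i
    · simp [h]
    · simp [h]
  refine ⟨fun α β => if h : ∃ i, β ∈ U α i then wellFounded_lt.min {i | β ∈ U α i} h
    else (hcov β).choose, ?_⟩
  intro B hB
  have h1 : ∀ i, ∃ γ, #(Y γ) ≤ m i ∧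
      Cardinal.sum (fun j : Iio i => m j.1) < #(B ∩ Y γ : Set L) := by
    intro i
    have hs := hlim.succ_lt (hsum i fun j _ => hmlt j)
    obtain ⟨b, hbB, hb⟩ := le_mk_iff_exists_subset.1 (hB ▸ hs.le : Order.succ _ ≤ #B)
    obtain ⟨γ, hγ1, hγ2⟩ := (hτ _ hs).2 b hb.le
    refine ⟨γ, hγ1.trans (hmτ i), ?_⟩
    refine lt_of_lt_of_le (Order.lt_succ _) (hb ▸ mk_le_mk_of_subset (subset_inter hbB hγ2))
  choose g hg1 hg2 using h1
  obtain ⟨δ, hδ⟩ := hK2 (range g) (mk_range_le.trans hι.le)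
  obtain ⟨ε, hε⟩ := hYcov (range fun i => e δ (g i)) (mk_range_le.trans_lt hι)
  refine ⟨max δ ε, fun α hα => ?_⟩
  have hδα : δ ≤ α := (le_max_left _ _).trans hα.le
  have hεα : ε ≤ α := (le_max_right _ _).trans hα.le
  obtain ⟨i₁, hi₁⟩ := hcov (e α δ)
  obtain ⟨i₂, hi₂⟩ := hcov (e α ε)
  obtain ⟨i₃, hi₃⟩ := hdom _ (hY ε)
  refine ⟨max i₁ (max i₂ i₃), fun i hi => ?_⟩
  have hi1 : i₁ ≤ i := (le_max_left _ _).trans hi
  have hi2 : i₂ ≤ i := ((le_max_left _ _).trans (le_max_right _ _)).trans hi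
  have hi3 : i₃ ≤ i := ((le_max_right _ _).trans (le_max_right _ _)).trans hi
  have hgE : g i ∈ E α i := by
    refine mem_iUnion₂.2 ⟨δ, ⟨hδα, hmono hi1 hi₁⟩, mem_iUnion₂.2 ⟨ε, ⟨hεα, hmono hi2 hi₂⟩, ?_⟩⟩
    exact ⟨hi₃.trans ((mk_le_mk_of_subset (hmono hi3)).trans (hmL i)), (hδ _ ⟨i, rfl⟩).le,
      hε ⟨i, rfl⟩⟩
  have h2 : ¬ (B ∩ Y (g i) ⊆ ⋃ j : Iio i, U α j.1) := by
    intro h
    have h3 := (mk_le_mk_of_subset h).trans (mk_iUnion_le_sum_mk.trans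
      (sum_le_sum _ _ fun j => hU α j.1))
    exact absurd h3 (not_le.2 (hg2 i))
  obtain ⟨β, ⟨hβB, hβY⟩, hβ⟩ := not_subset.1 h2
  have hβU : β ∈ U α i := mem_iUnion₂.2 ⟨g i, hgE, hg1 i, hβY⟩
  refine ⟨β, hβB, ?_⟩
  have hex : ∃ i, β ∈ U α i := ⟨i, hβU⟩
  simp only [hex, dif_pos]
  refine le_antisymm (not_lt.1 (wellFounded_lt.not_lt_min {i | β ∈ U α i} hβU)) (not_lt.1 fun hlt => hβ ?_)
  exact mem_iUnion.2 ⟨⟨_, hlt⟩, wellFounded_lt.min_mem {i | β ∈ U α i} hex⟩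

theorem main (lam : Cardinal.{u}) (hs : lam.IsSingular)
    (hcov : ∃ S : Set (Set lam.ord.ToType), #S ≤ Order.succ lam ∧ (∀ s ∈ S, #s < lam) ∧
      ∀ b : Set lam.ord.ToType, #b < lam → ∃ s ∈ S, b ⊆ s)
    (θ : Cardinal.{u}) (hθ0 : 0 < θ) (hθ : θ ≤ lam.ord.cof) :
    ∃ c : (Order.succ lam).ord.ToType → lam.ord.ToType → θ.ord.ToType,
      ∀ (A : Set (Order.succ lam).ord.ToType) (B : Set lam.ord.ToType),
        #A = Order.succ lam → #B = lam → ∀ t, ∃ α ∈ A, ∃ β ∈ B, c α β = t := by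
  classical
  have h0 : ℵ₀ ≤ lam := hs.aleph0_le
  have haleph : ℵ₀ < lam := lt_of_le_of_ne h0 fun h => not_isSingular_aleph0 (h ▸ hs)
  have hreg : lam.ord.cof.IsRegular := isRegular_cof (isSuccLimit_ord h0)
  obtain ⟨S, hSc, hSlt, hScov⟩ := hcov
  have hK : #(Order.succ lam).ord.ToType = Order.succ lam := Cardinal.mk_ord_toType _
  have hL : #(lam.ord.ToType) = lam := Cardinal.mk_ord_toType _
  have hι : #(lam.ord.cof.ord.ToType) = lam.ord.cof := Cardinal.mk_ord_toType _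
  have hcofK : Order.cof (Order.succ lam).ord.ToType = Order.succ lam := by
    rw [Ordinal.cof_toType, (isRegular_succ h0).cof_ord]
  have hcofL : Order.cof lam.ord.ToType = lam.ord.cof := Ordinal.cof_toType _
  have hcofι : Order.cof lam.ord.cof.ord.ToType = lam.ord.cof := by
    rw [Ordinal.cof_toType, hreg.cof_ord]
  have hK1 : ∀ γ : (Order.succ lam).ord.ToType, #(Iic γ) ≤ lam := fun γ =>
    Order.lt_succ_iff.1 (mk_Iic_lt (h0.trans (Order.le_succ _)) γ)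
  -- enumerate the family
  obtain ⟨s₀, hs₀, -⟩ := hScov ∅ (by simpa using aleph0_pos.trans_le h0)
  have : Nonempty S := ⟨⟨s₀, hs₀⟩⟩
  obtain ⟨f⟩ := (Cardinal.le_def S (Order.succ lam).ord.ToType).1 (by rw [hK]; exact hSc)
  -- cofinal sequence
  obtain ⟨T, hT, hTc⟩ := Order.exists_cof_eq lam.ord.ToType
  obtain ⟨s⟩ : Nonempty (lam.ord.cof.ord.ToType ≃ T) := Cardinal.eq.1 (by rw [hι, hTc, hcofL])
  obtain ⟨c, hc⟩ := core haleph hs.isSuccLimit (ι := lam.ord.cof.ord.ToType)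
    (K := (Order.succ lam).ord.ToType) (L := lam.ord.ToType)
    (by rw [hι]; exact hs.cof_ord_lt) (fun i => Cardinal.mk_Iio_toType_ord_lt i) hK1
    (fun s hs => bounded_of_lt_cof (by rw [hcofK]; exact Order.lt_succ_iff.2 hs)) hL
    (fun i => {x | ∃ j ≤ i, x ≤ (s j).1})
    (fun i => by
      obtain ⟨γ, hγ⟩ := bounded_of_lt_cof (s := (fun j => (s j).1) '' Iic i)
        (by rw [hcofL]; exact mk_image_le.trans_lt (mk_Iic_lt hreg.aleph0_le i))
      refine lt_of_le_of_lt (mk_le_mk_of_subset ?_) (mk_Iic_lt h0 γ)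
      rintro x ⟨j, hj, hx⟩
      exact hx.trans (hγ _ ⟨j, hj, rfl⟩).le)
    (fun i j hij x ⟨k, hk, hx⟩ => ⟨k, hk.trans hij, hx⟩)
    (fun x => by
      obtain ⟨y, hy, hxy⟩ := hT x
      exact ⟨s.symm ⟨y, hy⟩, s.symm ⟨y, hy⟩, le_rfl, by simpa using hxy⟩)
    (fun γ => (Function.invFun f γ).1) (fun γ => hSlt _ (Function.invFun f γ).2)
    (fun b hb => by
      obtain ⟨t, ht, hbt⟩ := hScov b hb
      refine ⟨f ⟨t, ht⟩, ?_⟩
      rw [Function.leftInverse_invFun f.injective]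
      exact hbt)
  -- a colouring of the index set with unbounded fibres
  obtain ⟨q⟩ : Nonempty (lam.ord.cof.ord.ToType ≃ lam.ord.cof.ord.ToType × θ.ord.ToType) := by
    refine Cardinal.eq.1 ?_
    simp only [mk_prod, lift_id, Cardinal.mk_ord_toType]
    exact (mul_eq_left hreg.aleph0_le hθ hθ0.ne').symm
  refine ⟨fun α β => (q (c α β)).2, fun A B hA hB t => ?_⟩
  obtain ⟨δ, hδ⟩ := hc B hB
  obtain ⟨α, hαA, hα⟩ : ∃ α ∈ A, δ < α := by
    by_contra h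
    push Not at h
    have h1 : #A ≤ lam := (mk_le_mk_of_subset (fun a ha => h a ha : A ⊆ Iic δ)).trans (hK1 δ)
    rw [hA] at h1
    exact absurd h1 (not_le.2 (Order.lt_succ lam))
  obtain ⟨i₀, hi₀⟩ := hδ α hα
  obtain ⟨j, hj⟩ : ∃ j, i₀ ≤ q.symm (j, t) := by
    by_contra h
    push Not at h
    have h1 : #(lam.ord.cof.ord.ToType) ≤ #(Iio i₀) :=
      mk_le_of_injective (f := fun j => (⟨q.symm (j, t), h j⟩ : Iio i₀)) fun a b hab => by
        have := q.symm.injective (congrArg Subtype.val hab)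
        exact congrArg Prod.fst this
    rw [hι] at h1
    exact absurd h1 (not_le.2 (Cardinal.mk_Iio_toType_ord_lt i₀))
  obtain ⟨β, hβ, hcβ⟩ := hi₀ _ hj
  exact ⟨α, hαA, β, hβ, by simp [hcβ]⟩

end Pool.Agent.P.MP_7ad5cd_lc
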